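import Pool.Agent.helper32.CK.Defs

/-! Module ck:Z2: direct sums of representations. -/

namespace Pool.Agent.helper32.CK

open scoped InnerProductSpace ComplexOrder
open Filter Topology

universe u v w

section Z2
variable {A : Type u} [NonUnitalCStarAlgebra A] {J : Type v} {H : J → Type w}
    [∀ j, NormedAddCommGroup (H j)] [∀ j, InnerProductSpace ℂ (H j)]
    [∀ j, CompleteSpace (H j)] (π : ∀ j, A →⋆ₙₐ[ℂ] (H j →L[ℂ] H j))

theorem Z2_norm (j : J) (a : A) (x : H j) : ‖π j a x‖ ≤ ‖a‖ * ‖x‖ :=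
  ((π j a).le_opNorm x).trans
    (mul_le_mul_of_nonneg_right (NonUnitalStarAlgHom.norm_apply_le (π j) a) (norm_nonneg _))

theorem Z2_mem (a : A) (x : lp H 2) : Memℓp (fun j => π j a (x j)) 2 := by
  apply memℓp_gen
  have h := (lp.memℓp x).summable (by norm_num)
  refine Summable.of_nonneg_of_le (fun j => by positivity) (fun j => ?_)
    (h.mul_left (‖a‖ ^ (2 : ENNReal).toReal))
  rw [← Real.mul_rpow (norm_nonneg _) (norm_nonneg _)]
  exact Real.rpow_le_rpow (norm_nonneg _) (Z2_norm π j a (x j)) (by norm_num)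

/-- The element of the direct sum. -/
noncomputable def Z2_app (a : A) (x : lp H 2) : lp H 2 := ⟨fun j => π j a (x j), Z2_mem π a x⟩

theorem Z2_app_apply (a : A) (x : lp H 2) (j : J) : Z2_app π a x j = π j a (x j) := rfl

theorem Z2_app_norm (a : A) (x : lp H 2) : ‖Z2_app π a x‖ ≤ ‖a‖ * ‖x‖ := by
  refine lp.norm_le_of_forall_sum_le (by norm_num) (by positivity) fun s => ?_
  calc ∑ i ∈ s, ‖Z2_app π a x i‖ ^ (2 : ENNReal).toReal
      ≤ ∑ i ∈ s, ‖a‖ ^ (2 : ENNReal).toReal * ‖x i‖ ^ (2 : ENNReal).toReal := by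
        refine Finset.sum_le_sum fun i _ => ?_
        rw [← Real.mul_rpow (norm_nonneg _) (norm_nonneg _)]
        exact Real.rpow_le_rpow (norm_nonneg _) (Z2_norm π i a (x i)) (by norm_num)
    _ = ‖a‖ ^ (2 : ENNReal).toReal * ∑ i ∈ s, ‖x i‖ ^ (2 : ENNReal).toReal := by
        rw [Finset.mul_sum]
    _ ≤ ‖a‖ ^ (2 : ENNReal).toReal * ‖x‖ ^ (2 : ENNReal).toReal := by
        gcongr
        exact lp.sum_rpow_le_norm_rpow (by norm_num) x s
    _ = (‖a‖ * ‖x‖) ^ (2 : ENNReal).toReal := by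
        rw [← Real.mul_rpow (norm_nonneg _) (norm_nonneg _)]

/-- The operator of the direct sum. -/
noncomputable def Z2_op (a : A) : lp H 2 →L[ℂ] lp H 2 :=
  LinearMap.mkContinuous
    { toFun := Z2_app π a
      map_add' := fun x y => by
        ext j
        simp [Z2_app_apply]
      map_smul' := fun c x => by
        ext j
        simp [Z2_app_apply] } ‖a‖ (Z2_app_norm π a)

theorem Z2_op_apply (a : A) (x : lp H 2) (j : J) : (Z2_op π a x) j = π j a (x j) := rfl

/-- The direct sum of representations. -/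
noncomputable def Z2_hom : A →⋆ₙₐ[ℂ] (lp H 2 →L[ℂ] lp H 2) where
  toFun := Z2_op π
  map_smul' c a := by
    ext x j
    simp [Z2_op_apply]
  map_zero' := by
    ext x j
    simp [Z2_op_apply]
  map_add' a b := by
    ext x j
    simp [Z2_op_apply]
  map_mul' a b := by
    ext x j
    simp [Z2_op_apply]
  map_star' a := by
    rw [ContinuousLinearMap.star_eq_adjoint, ContinuousLinearMap.eq_adjoint_iff]
    intro x y
    rw [lp.inner_eq_tsum, lp.inner_eq_tsum]
    refine tsum_congr fun j => ?_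
    rw [Z2_op_apply, Z2_op_apply, map_star, ContinuousLinearMap.star_eq_adjoint,
      ContinuousLinearMap.adjoint_inner_left]

end Z2

theorem exists_sum {A : Type u} [NonUnitalCStarAlgebra A] {J : Type v} (H : J → Type w)
    [∀ j, NormedAddCommGroup (H j)] [∀ j, InnerProductSpace ℂ (H j)]
    [∀ j, CompleteSpace (H j)] (π : ∀ j, A →⋆ₙₐ[ℂ] (H j →L[ℂ] H j)) :
    ∃ R : A →⋆ₙₐ[ℂ] (lp H 2 →L[ℂ] lp H 2), ∀ a (x : lp H 2) j, (R a x) j = π j a (x j) :=
  ⟨Z2_hom π, fun a x j => Z2_op_apply π a x j⟩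

end Pool.Agent.helper32.CK
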