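import Pool.Agent.helper67.CK.Z2
import Pool.Agent.helper1.CK.St2

/-! Module ck:Z3: any two C*-algebras act faithfully on a common Hilbert space, and `dKK ≤ 1`. -/

namespace Pool.Agent.helper32.CK

open scoped InnerProductSpace ComplexOrder
open Filter Topology

universe u v w

theorem Z3_oneSided {H : Type u} [NormedAddCommGroup H] [InnerProductSpace ℂ H]
    (S T : Set (H →L[ℂ] H)) (hT : (0 : H →L[ℂ] H) ∈ T) : oneSided S T ≤ 1 := by
  unfold oneSided
  refine Real.iSup_le (fun a => ?_) zero_le_one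
  refine (Metric.infDist_le_dist_of_mem hT).trans ?_
  rw [dist_zero_right]
  exact a.2.2

/-- A faithful representation, together with a prescribed family of Hilbert spaces. -/
theorem Z3_injective {A : Type u} [NonUnitalCStarAlgebra A] {J : Type v} {H : J → Type w}
    [∀ j, NormedAddCommGroup (H j)] [∀ j, InnerProductSpace ℂ (H j)]
    [∀ j, CompleteSpace (H j)] (π : ∀ j, A →⋆ₙₐ[ℂ] (H j →L[ℂ] H j))
    (h : ∀ a, a ≠ 0 → ∃ j, π j a ≠ 0)
    (R : A →⋆ₙₐ[ℂ] (lp H 2 →L[ℂ] lp H 2)) (hR : ∀ a (x : lp H 2) j, (R a x) j = π j a (x j)) :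
    Function.Injective R := by
  classical
  rw [injective_iff_map_eq_zero]
  intro a ha
  by_contra hne
  obtain ⟨j, hj⟩ := h a hne
  apply hj
  ext v
  have h1 := hR a (lp.single 2 j v) j
  rw [ha, lp.single_apply_self] at h1
  rw [← h1]
  rfl

theorem main_large (A B : Type u) [NonUnitalCStarAlgebra A]
    [NonUnitalCStarAlgebra B] :
    ∃ (H : Type u) (_ : NormedAddCommGroup H) (_ : InnerProductSpace ℂ H) (_ : CompleteSpace H)
      (ρA : A →⋆ₙₐ[ℂ] (H →L[ℂ] H)) (ρB : B →⋆ₙₐ[ℂ] (H →L[ℂ] H)),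
      Function.Injective ρA ∧ Function.Injective ρB ∧
      dKK (Set.range ρA) (Set.range ρB) ≤ 1 := by
  classical
  choose HA i1 i2 i3 πA hA1 hA2 using fun a : {a : A // a ≠ 0} => exists_irr a.1 a.2
  choose HB j1 j2 j3 πB hB1 hB2 using fun b : {b : B // b ≠ 0} => exists_irr b.1 b.2
  let H : {a : A // a ≠ 0} ⊕ {b : B // b ≠ 0} → Type u := Sum.elim HA HB
  let k1 : ∀ j, NormedAddCommGroup (H j) := fun j => match j with
    | Sum.inl a => i1 a
    | Sum.inr b => j1 b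
  let k2 : ∀ j, InnerProductSpace ℂ (H j) := fun j => match j with
    | Sum.inl a => i2 a
    | Sum.inr b => j2 b
  have k3 : ∀ j, CompleteSpace (H j) := fun j => match j with
    | Sum.inl a => i3 a
    | Sum.inr b => j3 b
  let RA : ∀ j, A →⋆ₙₐ[ℂ] (H j →L[ℂ] H j) := fun j => match j with
    | Sum.inl a => πA a
    | Sum.inr b => 0
  let RB : ∀ j, B →⋆ₙₐ[ℂ] (H j →L[ℂ] H j) := fun j => match j with
    | Sum.inl a => 0
    | Sum.inr b => πB b
  obtain ⟨ρA, hρA⟩ := exists_sum H RA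
  obtain ⟨ρB, hρB⟩ := exists_sum H RB
  refine ⟨lp H 2, inferInstance, inferInstance, inferInstance, ρA, ρB, ?_, ?_, ?_⟩
  · refine Z3_injective RA (fun a ha => ⟨Sum.inl ⟨a, ha⟩, fun h0 => ?_⟩) ρA hρA
    have h := hA2 ⟨a, ha⟩
    have h0' : πA ⟨a, ha⟩ a = 0 := h0
    rw [h0', norm_zero] at h
    exact ha (norm_le_zero_iff.mp h)
  · refine Z3_injective RB (fun a ha => ⟨Sum.inr ⟨a, ha⟩, fun h0 => ?_⟩) ρB hρB
    have h := hB2 ⟨a, ha⟩
    have h0' : πB ⟨a, ha⟩ a = 0 := h0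
    rw [h0', norm_zero] at h
    exact ha (norm_le_zero_iff.mp h)
  · exact max_le (Z3_oneSided _ _ ⟨0, map_zero ρB⟩) (Z3_oneSided _ _ ⟨0, map_zero ρA⟩)

end Pool.Agent.helper32.CK
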